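import Pool.Agent.H72.PER.Targets

/-!
# MP_3cf473_nt, board per_modules, row EXA: basic facts on extension of scalars
-/

set_option autoImplicit false

open Module Filter

namespace Pool.Agent.H54.PER

open Pool.Agent.H72.HR Pool.Agent.H72.PER
open Pool.Agent.H72.SBP (MvK)

section
variable {K F : Type} [Field K] [Field F] [Algebra K F]

/-- the image of a vector -/
private noncomputable def io (F : Type) [Field F] [Algebra K F] {l : ℕ} (v : Fin l → K) :
    Fin l → F := fun i => algebraMap K F (v i)

private theorem io_add {l : ℕ} (v w : Fin l → K) : io F (v + w) = io F v + io F w := by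
  funext i
  simp [io]

private theorem io_smul {l : ℕ} (a : K) (v : Fin l → K) :
    io F (a • v) = algebraMap K F a • io F v := by
  funext i
  simp [io]

private theorem io_sum {l : ℕ} {ι : Type} (s : Finset ι) (f : ι → Fin l → K) :
    io F (∑ i ∈ s, f i) = ∑ i ∈ s, io F (f i) := by
  funext i
  simp [io]

private theorem io_mem {l : ℕ} {V : Submodule K (Fin l → K)} {v : Fin l → K} (hv : v ∈ V) :
    io F v ∈ ext F V := Submodule.subset_span ⟨v, hv, rfl⟩

private theorem ext_le {l : ℕ} {V : Submodule K (Fin l → K)} {W : Submodule F (Fin l → F)}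
    (h : ∀ v ∈ V, io F v ∈ W) : ext F V ≤ W := by
  unfold ext
  rw [Submodule.span_le]
  rintro _ ⟨v, hv, rfl⟩
  exact h v hv

private theorem indep {l : ℕ} {v : ℕ} (b : Fin v → Fin l → K) (hb : LinearIndependent K b) :
    LinearIndependent F fun i => io F (b i) := by
  classical
  obtain ⟨L, hL⟩ := LinearMap.exists_leftInverse_of_injective (Fintype.linearCombination K b)
    (LinearMap.ker_eq_bot.2 hb.fintypeLinearCombination_injective)
  have hLb : ∀ i, L (b i) = Pi.single i 1 := by
    intro i
    have h1 : Fintype.linearCombination K b (Pi.single i 1) = b i := by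
      rw [Fintype.linearCombination_apply_single, one_smul]
    have h2 := LinearMap.congr_fun hL (Pi.single i 1)
    rw [LinearMap.comp_apply, h1] at h2
    exact h2
  let LF : (Fin l → F) →ₗ[F] (Fin v → F) := Matrix.mulVecLin
    (Matrix.of fun (j : Fin v) (i : Fin l) => algebraMap K F (L (Pi.single i 1) j))
  have hLF : ∀ y : Fin l → K, LF (io F y) = io F (L y) := by
    intro y
    funext j
    show Matrix.mulVec _ (io F y) j = _
    have h1 : L y = ∑ i, y i • L (Pi.single i 1) := by
      conv_lhs => rw [pi_eq_sum_univ' y]
      rw [map_sum]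
      refine Finset.sum_congr rfl fun i _ => ?_
      rw [map_smul]
    rw [h1]
    simp only [Matrix.mulVec, dotProduct, Matrix.of_apply, io, Finset.sum_apply, Pi.smul_apply,
      smul_eq_mul, map_sum, map_mul]
    refine Finset.sum_congr rfl fun i _ => ?_
    ring
  refine LinearIndependent.of_comp LF ?_
  have h3 : (LF ∘ fun i => io F (b i)) = fun i => (Pi.single i 1 : Fin v → F) := by
    funext i
    rw [Function.comp_apply, hLF, hLb]
    funext j
    simp only [io, Pi.single_apply]
    split_ifs <;> simp
  rw [h3]
  exact Pi.linearIndependent_single_one (Fin v) F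

end

/-- Row EXA -/
theorem pf_EXA : T_EXA := by
  classical
  intro K F _ _ _ n l c
  have hmono : ∀ V V' : Submodule K (Fin l → K), V ≤ V' → ext F V ≤ ext F V' := fun V V' h =>
    Submodule.span_mono (Set.image_mono h)
  refine ⟨fun V => ?_, hmono, fun V V' => ?_, ?_, ?_, fun x A V U h => ?_⟩
  · let b := finBasis K V
    have hb : LinearIndependent K fun i => ((b i : V) : Fin l → K) :=
      b.linearIndependent.map' V.subtype (Submodule.ker_subtype V)
    have h1 := indep (F := F) (fun i => ((b i : V) : Fin l → K)) hb
    have h2 : ext F V = Submodule.span F (Set.range fun i => io F ((b i : V) : Fin l → K)) := by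
      apply le_antisymm
      · refine ext_le fun v hv => ?_
        have h3 : v = ∑ i, b.repr ⟨v, hv⟩ i • ((b i : V) : Fin l → K) := by
          have h4 := congrArg (Submodule.subtype V) (b.sum_repr ⟨v, hv⟩)
          rw [map_sum] at h4
          exact h4.symm
        rw [h3, io_sum]
        refine Submodule.sum_mem _ fun i _ => ?_
        rw [io_smul]
        exact Submodule.smul_mem _ _ (Submodule.subset_span ⟨i, rfl⟩)
      · rw [Submodule.span_le]
        rintro _ ⟨i, rfl⟩
        exact io_mem (b i).2
    rw [h2, finrank_span_eq_card h1, Fintype.card_fin]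
  · apply le_antisymm
    · refine ext_le fun v hv => ?_
      obtain ⟨y, hy, z, hz, rfl⟩ := Submodule.mem_sup.1 hv
      rw [io_add]
      exact Submodule.add_mem_sup (io_mem hy) (io_mem hz)
    · exact sup_le (hmono _ _ le_sup_left) (hmono _ _ le_sup_right)
  · rw [eq_top_iff]
    rintro w -
    rw [pi_eq_sum_univ' w]
    refine Submodule.sum_mem _ fun i _ => ?_
    have h1 : (Pi.single i 1 : Fin l → F) = io F (Pi.single i 1 : Fin l → K) := by
      funext j
      simp only [io, Pi.single_apply]
      split_ifs <;> simp
    have h2 : (fun j => if i = j then (1 : F) else 0) = (Pi.single i 1 : Fin l → F) := by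
      funext j
      simp only [Pi.single_apply, eq_comm]
    have h3 : (Pi.single i 1 : Fin l → F) ∈ ext F (⊤ : Submodule K (Fin l → K)) := by
      rw [h1]
      exact io_mem Submodule.mem_top
    refine Submodule.smul_mem _ _ ?_
    exact h3
  · rw [eq_bot_iff]
    refine ext_le fun v hv => ?_
    rw [(Submodule.mem_bot K).1 hv, Submodule.mem_bot]
    funext i
    simp [io]
  · rw [Submodule.map_le_iff_le_comap]
    refine ext_le fun v hv => ?_
    rw [Submodule.mem_comap]
    have h1 : Matrix.vecMulLinear (MvK x A) (io F v) =
        ∑ k, (Fin.cons 1 x : Fin (n + 1) → F) k • io F (Matrix.vecMul v (A k)) := by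
      funext j
      rw [Matrix.vecMulLinear_apply]
      have h2 : ∀ p, MvK x A p j =
          ∑ k, (Fin.cons 1 x : Fin (n + 1) → F) k * algebraMap K F (A k p j) := by
        intro p
        rw [Fin.sum_univ_succ]
        simp only [Fin.cons_zero, Fin.cons_succ, one_mul, MvK]
      simp only [Matrix.vecMul, dotProduct, h2, io, Finset.sum_apply, Pi.smul_apply, smul_eq_mul,
        map_sum, map_mul, Finset.mul_sum]
      rw [Finset.sum_comm]
      refine Finset.sum_congr rfl fun k _ => Finset.sum_congr rfl fun p _ => ?_
      ring
    rw [h1]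
    exact Submodule.sum_mem _ fun k _ => Submodule.smul_mem _ _
      (io_mem (h k (Set.mem_univ k) v hv))

end Pool.Agent.H54.PER
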